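import Pool.Agent.Lib.G6D.ZFin
import Pool.Agent.Lib.G6.FGen
import Pool.Agent.Lib.TopPl.Bridge

namespace Pool.Agent.Results.MP_aa6b05_co.ApexDrawn

open Pool.Agent.Lib.TopPl

theorem result {V : Type} [Fintype V] (G : SimpleGraph V) (a : V)
    (hp : Planar (G.induce {v | v ≠ a}))
    (hg : ∀ (v : V) (c : G.Walk v v), c.IsCycle → a ∉ c.support → c.length ≤ 5 →
      ∃ x ∈ c.support, ∃ y ∈ c.support, x ≠ y ∧ G.Adj a x ∧ G.Adj a y)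
    (hd : ∀ v, v ≠ a → 3 ≤ (G.neighborSet v).ncard ∨
      (2 ≤ (G.neighborSet v).ncard ∧ G.Adj a v)) :
    ∃ f : V → V → ℤ, (∀ u v, f v u = - f u v) ∧ (∀ u v, ¬ G.Adj u v → f u v = 0) ∧
      (∀ u v, G.Adj u v → 0 < |f u v| ∧ |f u v| < 4) ∧ ∀ u, ∑ v, f u v = 0 := by
  classical
  exact Pool.Agent.Lib.G6.F.final1_of Pool.Agent.Lib.G6.Z.noCtx G a (isPlanar_of_planar hp) hg hd

end Pool.Agent.Results.MP_aa6b05_co.ApexDrawn
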