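import Pool.Agent.Lib.CF53.FinEff

namespace Pool.Agent.Results.MP_aa6b05_co.CriticalFinite

open Pool.Agent.Lib.MP_aa6b05_co.D

theorem result : ∃ N : ℕ → ℕ, Primrec N ∧ ∀ (k : ℕ) (V E : Type) [Fintype V] [Fintype E]
    [DecidableEq V] (s t : E → V), ¬ HasNZ4Flow s t →
    (∀ e, HasNZ4Flow (fun x => if s x = t e then s e else s x)
      (fun x => if t x = t e then s e else t x)) →
    2 * Fintype.card V ≤ Fintype.card E + k → Fintype.card V + Fintype.card E ≤ N k :=
  Pool.Agent.Lib.CF64.fin_eff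

end Pool.Agent.Results.MP_aa6b05_co.CriticalFinite
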