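import Pool.Agent.Lib.CF64.F4Main

namespace Pool.Agent.Results.MP_aa6b05_co.TreeShortFour

open Pool.Agent.Lib.MP_aa6b05_co.D

theorem result {V E : Type} [Fintype V] [Fintype E] [DecidableEq V] (s t : E → V)
    (hconn : ∀ a b, Conn s t Set.univ Set.univ a b) (hbridgeless : Bridgeless s t)
    (hshort : ∃ (s' t' : Fin 4 → V) (c : E ⊕ Fin 4 → Bool),
      ∀ b u v, Conn (Sum.elim s s') (Sum.elim t t') Set.univ {e | c e = b} u v) :
    HasNZ4Flow s t ∨ ContractsToPetersen s t :=
  Pool.Agent.Lib.CF64.final4 s t hconn hbridgeless le_rfl hshort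

end Pool.Agent.Results.MP_aa6b05_co.TreeShortFour
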