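import Pool.Agent.Lib.Tw5.All

namespace Pool.Agent.Results.MP_aa6b05_co.TreeWidthFive

open Pool.Agent.Lib.MP_aa6b05_co.D Pool.Agent.Lib.Tw5.D

theorem result {V E : Type} [Fintype V] [Fintype E] [DecidableEq V] (s t : E → V)
    (hw : TreeWidthLE s t 5) (hb : Bridgeless s t) (hp : ¬ HasPetersenMinor s t) :
    HasNZ4Flow s t :=
  Pool.Agent.Lib.Tw5.main s t hw hb hp

end Pool.Agent.Results.MP_aa6b05_co.TreeWidthFive
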